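import Pool.Agent.H5.Mb9b46bProof

set_option autoImplicit false

namespace Pool.Agent.Results.MP_b9b46b_al.AllOfC

universe u

open Pool.Agent.H5.Mb9b46b

/-- For every `A` in the class `𝒞`, the local-global property (a) and condition (b) are
equivalent. -/
theorem result : ∀ (A : Type u) [CommRing A] [Lattice A], InC A → (LG A ↔ CondB A) :=
  fun _ _ _ hA => ⟨fun h => a_imp_b h, fun h => b_imp_a hA h⟩

end Pool.Agent.Results.MP_b9b46b_al.AllOfC
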